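import Mathlib
import Pool.Agent.R181.AztecVal

/-!
The number of domino tilings of the Aztec diamond of order `n` with the two unit squares centred at
`(-1/2,-1/2)` and `(1/2,3/2)` removed, in closed form for every `n ≥ 2`.

Idea. In the coordinates `u = x + y + n`, `v = x - y + n` the dual graph is a tensor product of
paths. Counting inversions row by row gives explicit signs that turn the number of perfect matchings
of the graph without the two vertices into a determinant which differs from the one of the full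
Aztec diamond in two rows. In the basis of symmetric Krawtchouk numbers (coefficients of
`(1-t)^x (1+t)^y`) the signed adjacency matrix is bidiagonal along antidiagonals, so its determinant
and its inverse are explicit. The remaining two by two determinant involves half sums of products of
central binomial coefficients that telescope.
-/

set_option autoImplicit false

namespace Pool.Agent.Results.MP_b90a94_co.KnightMove

open Pool.Agent.R181.Aztec

/-- A unit square of the integer lattice, given by its lower left corner: `(a, b)` stands for the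
square with centre `(a + 1/2, b + 1/2)`. -/
abbrev Cell : Type := ℤ × ℤ

/-- The Aztec diamond of order `n`: the unit squares whose centre `(x, y)` satisfies
`|x| + |y| ≤ n`. -/
def aztec (n : ℕ) : Set Cell := {c | |(c.1 : ℝ) + 1 / 2| + |(c.2 : ℝ) + 1 / 2| ≤ n}

/-- The region `D_n`: the Aztec diamond of order `n` without the two squares centred at
`(-1/2, -1/2)` and `(1/2, 3/2)`. -/
def region (n : ℕ) : Set Cell := aztec n \ {(-1, -1), (0, 1)}

/-- A domino, as the set of its two unit squares, which share an edge. -/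
def IsDomino (d : Set Cell) : Prop :=
  ∃ a b : ℤ, d = {(a, b), (a + 1, b)} ∨ d = {(a, b), (a, b + 1)}

/-- A domino tiling of `R`: a set of dominoes contained in `R` such that every square of `R` lies
in exactly one of them. -/
def IsTiling (R : Set Cell) (t : Set (Set Cell)) : Prop :=
  (∀ d ∈ t, IsDomino d ∧ d ⊆ R) ∧ ∀ c ∈ R, ∃! d, d ∈ t ∧ c ∈ d

/-- `T n`: the number of domino tilings of `D_n`. -/
noncomputable def T (n : ℕ) : ℕ := Set.ncard {t : Set (Set Cell) | IsTiling (region n) t}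

/-! ### dominoes and adjacent squares -/

/-- sharing an edge -/
def Adj2 (x y : Cell) : Prop :=
  (x.1 = y.1 ∧ (y.2 = x.2 + 1 ∨ x.2 = y.2 + 1)) ∨ (x.2 = y.2 ∧ (y.1 = x.1 + 1 ∨ x.1 = y.1 + 1))

lemma Adj2.symm {x y : Cell} (h : Adj2 x y) : Adj2 y x := by
  unfold Adj2 at *; omega

lemma isDomino_pair {x y : Cell} : IsDomino {x, y} ↔ Adj2 x y := by
  obtain ⟨x1, x2⟩ := x
  obtain ⟨y1, y2⟩ := y
  constructor
  · rintro ⟨a, b, h | h⟩
    · rw [Set.pair_eq_pair_iff] at h
      simp only [Prod.mk.injEq] at h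
      unfold Adj2
      simp only
      omega
    · rw [Set.pair_eq_pair_iff] at h
      simp only [Prod.mk.injEq] at h
      unfold Adj2
      simp only
      omega
  · intro h
    unfold Adj2 at h
    simp only at h
    rcases h with ⟨h1, h2 | h2⟩ | ⟨h1, h2 | h2⟩
    · exact ⟨x1, x2, Or.inr (by rw [← h1, h2])⟩
    · exact ⟨y1, y2, Or.inr (by rw [h1, h2, Set.pair_comm])⟩
    · exact ⟨x1, x2, Or.inl (by rw [← h1, h2])⟩
    · exact ⟨y1, y2, Or.inl (by rw [h1, h2, Set.pair_comm])⟩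

lemma isDomino_exists {d : Set Cell} (h : IsDomino d) : ∃ x y, d = {x, y} ∧ Adj2 x y := by
  obtain ⟨a, b, h | h⟩ := h
  · exact ⟨(a, b), (a + 1, b), h, isDomino_pair.mp (by rw [← h]; exact ⟨a, b, Or.inl h⟩)⟩
  · exact ⟨(a, b), (a, b + 1), h, isDomino_pair.mp (by rw [← h]; exact ⟨a, b, Or.inr h⟩)⟩

/-! ### tilings and bijections -/

section general
variable {n q : ℕ} (hq : q + 1 < n) (cE : E n → Cell) (cO : O n → Cell) (R : Set Cell)

/-- the data of an identification of the region with the two colour classes -/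
structure Ident : Prop where
  injE : Function.Injective cE
  injO : Function.Injective cO
  ne : ∀ e o, cE e ≠ cO o
  adjEO : ∀ e o, Adj2 (cE e) (cO o) ↔ adj e o
  adjEE : ∀ e e', ¬ Adj2 (cE e) (cE e')
  adjOO : ∀ o o', ¬ Adj2 (cO o) (cO o')
  reg : ∀ c, c ∈ R ↔ (∃ e, e ≠ e0 hq ∧ c = cE e) ∨ (∃ o, o ≠ o0 hq ∧ c = cO o)

/-- the tiling of a bijection -/
def toTiling (σ : E n ≃ O n) : Set (Set Cell) := {d | ∃ e, e ≠ e0 hq ∧ d = {cE e, cO (σ e)}}

variable {cE cO R} (I : Ident hq cE cO R)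
include I

lemma pair_inj {e e' : E n} {o o' : O n} (h : ({cE e, cO o} : Set Cell) = {cE e', cO o'}) :
    e = e' ∧ o = o' := by
  rw [Set.pair_eq_pair_iff] at h
  rcases h with h | h
  · exact ⟨I.injE h.1, I.injO h.2⟩
  · exact absurd h.1 (I.ne _ _)

lemma toTiling_isTiling {σ : E n ≃ O n} (h : Valid hq σ) : IsTiling R (toTiling hq cE cO σ) := by
  have hne : ∀ e, e ≠ e0 hq → σ e ≠ o0 hq := by
    intro e he h2
    rw [← h.1] at h2
    exact he (σ.injective h2)
  constructor
  · rintro d ⟨e, he, rfl⟩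
    refine ⟨isDomino_pair.mpr ((I.adjEO e (σ e)).mpr (h.2 e he)), ?_⟩
    intro c hc
    rcases hc with rfl | hc
    · exact (I.reg _).mpr (Or.inl ⟨e, he, rfl⟩)
    · rw [Set.mem_singleton_iff] at hc
      exact (I.reg _).mpr (Or.inr ⟨σ e, hne e he, hc⟩)
  · intro c hc
    rcases (I.reg c).mp hc with ⟨e, he, rfl⟩ | ⟨o, ho, rfl⟩
    · refine ⟨{cE e, cO (σ e)}, ⟨⟨e, he, rfl⟩, Set.mem_insert _ _⟩, ?_⟩
      rintro d ⟨⟨e', he', rfl⟩, hd⟩
      rcases hd with hd | hd
      · rw [I.injE hd]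
      · exact absurd hd (I.ne _ _)
    · have ho' : σ.symm o ≠ e0 hq := by
        intro h2
        apply ho
        rw [← h.1, ← h2, Equiv.apply_symm_apply]
      refine ⟨{cE (σ.symm o), cO (σ (σ.symm o))}, ⟨⟨σ.symm o, ho', rfl⟩, ?_⟩, ?_⟩
      · rw [Equiv.apply_symm_apply]; exact Set.mem_insert_of_mem _ rfl
      · rintro d ⟨⟨e', he', rfl⟩, hd⟩
        rcases hd with hd | hd
        · exact absurd hd.symm (I.ne _ _)
        · rw [Set.mem_singleton_iff] at hd
          have : o = σ e' := I.injO hd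
          rw [this, Equiv.symm_apply_apply]

lemma toTiling_inj {σ τ : E n ≃ O n} (h : Valid hq σ) (h' : Valid hq τ)
    (heq : toTiling hq cE cO σ = toTiling hq cE cO τ) : σ = τ := by
  ext1 e
  by_cases he : e = e0 hq
  · rw [he, h.1, h'.1]
  · have h1 : ({cE e, cO (σ e)} : Set Cell) ∈ toTiling hq cE cO τ := by
      rw [← heq]; exact ⟨e, he, rfl⟩
    obtain ⟨e', _, h2⟩ := h1
    obtain ⟨h3, h4⟩ := pair_inj hq I h2
    rw [h4, h3]

lemma exists_of_tiling {t : Set (Set Cell)} (ht : IsTiling R t) :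
    ∃ σ : E n ≃ O n, Valid hq σ ∧ toTiling hq cE cO σ = t := by
  -- shape of the dominoes of the tiling
  have shape : ∀ d ∈ t, ∃ e o, e ≠ e0 hq ∧ o ≠ o0 hq ∧ adj e o ∧ d = {cE e, cO o} := by
    intro d hd
    obtain ⟨hdom, hsub⟩ := ht.1 d hd
    obtain ⟨x, y, rfl, hxy⟩ := isDomino_exists hdom
    have hx := (I.reg x).mp (hsub (Set.mem_insert _ _))
    have hy := (I.reg y).mp (hsub (Set.mem_insert_of_mem _ rfl))
    rcases hx with ⟨e, he, rfl⟩ | ⟨o, ho, rfl⟩ <;> rcases hy with ⟨e', he', rfl⟩ | ⟨o', ho', rfl⟩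
    · exact absurd hxy (I.adjEE _ _)
    · exact ⟨e, o', he, ho', (I.adjEO _ _).mp hxy, rfl⟩
    · exact ⟨e', o, he', ho, (I.adjEO _ _).mp hxy.symm, Set.pair_comm _ _⟩
    · exact absurd hxy (I.adjOO _ _)
  have ex : ∀ e, e ≠ e0 hq → ∃ o, o ≠ o0 hq ∧ adj e o ∧ ({cE e, cO o} : Set Cell) ∈ t := by
    intro e he
    obtain ⟨d, ⟨hd, hed⟩, _⟩ := ht.2 (cE e) ((I.reg _).mpr (Or.inl ⟨e, he, rfl⟩))
    obtain ⟨e', o, _, ho, hadj, rfl⟩ := shape d hd
    rcases hed with h | h
    · have h' := I.injE h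
      subst h'
      exact ⟨o, ho, hadj, hd⟩
    · exact absurd h (I.ne _ _)
  classical
  have : Nonempty (O n) := ⟨o0 hq⟩
  choose! f hf using ex
  let g : E n → O n := fun e => if e = e0 hq then o0 hq else f e
  have hg0 : g (e0 hq) = o0 hq := if_pos rfl
  have hg1 : ∀ e, e ≠ e0 hq → g e = f e := fun e he => if_neg he
  have hginj : Function.Injective g := by
    intro e e' hee
    by_cases h1 : e = e0 hq
    · by_cases h2 : e' = e0 hq
      · rw [h1, h2]
      · rw [h1, hg0, hg1 e' h2] at hee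
        exact absurd hee.symm (hf e' h2).1
    · by_cases h2 : e' = e0 hq
      · rw [h2, hg0, hg1 e h1] at hee
        exact absurd hee (hf e h1).1
      · rw [hg1 e h1, hg1 e' h2] at hee
        have m1 := (hf e h1).2.2
        have m2 := (hf e' h2).2.2
        rw [← hee] at m2
        obtain ⟨d, _, hu⟩ := ht.2 (cO (f e)) ((I.reg _).mpr (Or.inr ⟨f e, (hf e h1).1, rfl⟩))
        have u1 := hu _ ⟨m1, Set.mem_insert_of_mem _ rfl⟩
        have u2 := hu _ ⟨m2, Set.mem_insert_of_mem _ rfl⟩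
        exact (pair_inj hq I (u1.trans u2.symm)).1
  have hgbij : Function.Bijective g := by
    rw [Fintype.bijective_iff_injective_and_card]
    exact ⟨hginj, by rw [cardE, cardO]⟩
  refine ⟨Equiv.ofBijective g hgbij, ⟨hg0, ?_⟩, ?_⟩
  · intro e he
    rw [Equiv.ofBijective_apply, hg1 e he]
    exact (hf e he).2.1
  · ext d
    constructor
    · rintro ⟨e, he, rfl⟩
      rw [Equiv.ofBijective_apply, hg1 e he]
      exact (hf e he).2.2
    · intro hd
      obtain ⟨e, o, he, ho, hadj, rfl⟩ := shape d hd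
      refine ⟨e, he, ?_⟩
      rw [Equiv.ofBijective_apply, hg1 e he]
      obtain ⟨d', _, hu⟩ := ht.2 (cE e) ((I.reg _).mpr (Or.inl ⟨e, he, rfl⟩))
      have u1 := hu _ ⟨hd, Set.mem_insert _ _⟩
      have u2 := hu _ ⟨(hf e he).2.2, Set.mem_insert _ _⟩
      exact u1.trans u2.symm

lemma ncard_tilings : Set.ncard {t : Set (Set Cell) | IsTiling R t} =
    Fintype.card {σ : E n ≃ O n // Valid hq σ} := by
  have h1 : {t : Set (Set Cell) | IsTiling R t} =
      (toTiling hq cE cO) '' {σ : E n ≃ O n | Valid hq σ} := by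
    ext t
    constructor
    · intro ht
      obtain ⟨σ, h, h'⟩ := exists_of_tiling hq I ht
      exact ⟨σ, h, h'⟩
    · rintro ⟨σ, h, rfl⟩
      exact toTiling_isTiling hq I h
  have h2 : Set.InjOn (toTiling hq cE cO) {σ : E n ≃ O n | Valid hq σ} := by
    intro σ h τ h' heq
    exact toTiling_inj hq I h h' heq
  rw [h1, h2.ncard_image, ← Nat.card_coe_set_eq]
  exact Nat.card_eq_fintype_card (α := {σ : E n ≃ O n // Valid hq σ})

end general

/-! ### the two identifications -/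

lemma mem_aztec {n : ℕ} {a b : ℤ} : (a, b) ∈ aztec n ↔
    (a + b + 1 ≤ n ∧ a - b ≤ n ∧ b - a ≤ n ∧ -(a + b + 1) ≤ n) := by
  have key : (a, b) ∈ aztec n ↔
      ((a : ℝ) + b + 1 ≤ n ∧ (a : ℝ) - b ≤ n ∧ (b : ℝ) - a ≤ n ∧ -((a : ℝ) + b + 1) ≤ n) := by
    unfold aztec
    rw [Set.mem_ofPred_eq]
    constructor
    · intro h
      have h1 := le_abs_self ((a : ℝ) + 1 / 2)
      have h2 := neg_le_abs ((a : ℝ) + 1 / 2)
      have h3 := le_abs_self ((b : ℝ) + 1 / 2)
      have h4 := neg_le_abs ((b : ℝ) + 1 / 2)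
      simp only at h
      refine ⟨?_, ?_, ?_, ?_⟩ <;> linarith
    · rintro ⟨h1, h2, h3, h4⟩
      simp only
      rcases abs_cases ((a : ℝ) + 1 / 2) with ⟨g1, _⟩ | ⟨g1, _⟩ <;>
      rcases abs_cases ((b : ℝ) + 1 / 2) with ⟨g2, _⟩ | ⟨g2, _⟩ <;>
      rw [g1, g2] <;> linarith
  rw [key]
  constructor
  · rintro ⟨h1, h2, h3, h4⟩
    refine ⟨by exact_mod_cast h1, by exact_mod_cast h2, by exact_mod_cast h3, by exact_mod_cast h4⟩
  · rintro ⟨h1, h2, h3, h4⟩
    refine ⟨by exact_mod_cast h1, by exact_mod_cast h2, by exact_mod_cast h3, by exact_mod_cast h4⟩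

/-- identification for even order -/
def evE (n : ℕ) (e : E n) : Cell :=
  ((e.1 : ℕ) - (e.2 : ℕ) - 1, (n : ℤ) - 1 - (e.1 : ℕ) - (e.2 : ℕ))
def evO (n : ℕ) (o : O n) : Cell :=
  ((o.1 : ℕ) - (o.2 : ℕ), (n : ℤ) - 1 - (o.1 : ℕ) - (o.2 : ℕ))

/-- identification for odd order -/
def odE (n : ℕ) (e : E n) : Cell :=
  ((e.2 : ℕ) - (e.1 : ℕ), ((e.1 : ℕ) : ℤ) + (e.2 : ℕ) - n)
def odO (n : ℕ) (o : O n) : Cell :=
  ((o.2 : ℕ) - (o.1 : ℕ) - 1, ((o.1 : ℕ) : ℤ) + (o.2 : ℕ) - n)

lemma o0_iff {n q : ℕ} (hq : q + 1 < n) (o : O n) : o = o0 hq ↔ (o.1 : ℕ) = q ∧ (o.2 : ℕ) = q := by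
  constructor
  · rintro rfl; exact ⟨rfl, rfl⟩
  · rintro ⟨h1, h2⟩; exact Prod.ext (Fin.ext h1) (Fin.ext h2)

lemma ident_even (m : ℕ) (hm : 1 ≤ m) (hq : (m - 1) + 1 < 2 * m) :
    Ident hq (evE (2 * m)) (evO (2 * m)) (region (2 * m)) where
  injE := by
    rintro ⟨a, b⟩ ⟨c, d⟩ h
    simp only [evE, Prod.mk.injEq] at h
    have h1 : (a : ℕ) = c := by omega
    have h2 : (b : ℕ) = d := by omega
    rw [Prod.mk.injEq]
    exact ⟨Fin.ext h1, Fin.ext h2⟩
  injO := by
    rintro ⟨a, b⟩ ⟨c, d⟩ h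
    simp only [evO, Prod.mk.injEq] at h
    have h1 : (a : ℕ) = c := by omega
    have h2 : (b : ℕ) = d := by omega
    rw [Prod.mk.injEq]
    exact ⟨Fin.ext h1, Fin.ext h2⟩
  ne := by
    rintro ⟨a, b⟩ ⟨c, d⟩ h
    simp only [evE, evO, Prod.mk.injEq] at h
    omega
  adjEO := by
    rintro ⟨a, b⟩ ⟨c, d⟩
    simp only [evE, evO, Adj2, adj]
    omega
  adjEE := by
    rintro ⟨a, b⟩ ⟨c, d⟩ h
    simp only [evE, Adj2] at h
    omega
  adjOO := by
    rintro ⟨a, b⟩ ⟨c, d⟩ h
    simp only [evO, Adj2] at h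
    omega
  reg := by
    rintro ⟨a, b⟩
    unfold region
    rw [Set.mem_sdiff, mem_aztec, Set.mem_insert_iff, Set.mem_singleton_iff]
    simp only [Prod.mk.injEq]
    push_cast
    constructor
    · rintro ⟨⟨h1, h2, h3, h4⟩, h5⟩
      rcases Int.even_or_odd' (a - b) with ⟨r, hr | hr⟩
      · -- `u` even
        left
        have hj : (r + m).toNat < 2 * m + 1 := by omega
        have hd : (r + m - 1 - a).toNat < 2 * m := by omega
        refine ⟨(⟨(r + m).toNat, hj⟩, ⟨(r + m - 1 - a).toNat, hd⟩), ?_, ?_⟩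
        · rw [Ne, eq_e0_iff]
          simp only
          omega
        · simp only [evE, Prod.mk.injEq]
          push_cast
          omega
      · right
        have hj : (r + m).toNat < 2 * m := by omega
        have hd : (r + m - a).toNat < 2 * m + 1 := by omega
        refine ⟨(⟨(r + m).toNat, hj⟩, ⟨(r + m - a).toNat, hd⟩), ?_, ?_⟩
        · rw [Ne, o0_iff]
          simp only
          omega
        · simp only [evO, Prod.mk.injEq]
          push_cast
          omega
    · rintro (⟨⟨j, d⟩, h1, h2⟩ | ⟨⟨i, c⟩, h1, h2⟩)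
      · have hj := j.isLt
        have hd := d.isLt
        rw [Ne, eq_e0_iff] at h1
        simp only [evE, Prod.mk.injEq] at h1 h2
        push_cast at h2
        omega
      · have hj := i.isLt
        have hd := c.isLt
        rw [Ne, o0_iff] at h1
        simp only [evO, Prod.mk.injEq] at h1 h2
        push_cast at h2
        omega

lemma ident_odd (m : ℕ) (hq : m + 1 < 2 * m + 1) :
    Ident hq (odE (2 * m + 1)) (odO (2 * m + 1)) (region (2 * m + 1)) where
  injE := by
    rintro ⟨a, b⟩ ⟨c, d⟩ h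
    simp only [odE, Prod.mk.injEq] at h
    have h1 : (a : ℕ) = c := by omega
    have h2 : (b : ℕ) = d := by omega
    rw [Prod.mk.injEq]
    exact ⟨Fin.ext h1, Fin.ext h2⟩
  injO := by
    rintro ⟨a, b⟩ ⟨c, d⟩ h
    simp only [odO, Prod.mk.injEq] at h
    have h1 : (a : ℕ) = c := by omega
    have h2 : (b : ℕ) = d := by omega
    rw [Prod.mk.injEq]
    exact ⟨Fin.ext h1, Fin.ext h2⟩
  ne := by
    rintro ⟨a, b⟩ ⟨c, d⟩ h
    simp only [odE, odO, Prod.mk.injEq] at h
    omega
  adjEO := by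
    rintro ⟨a, b⟩ ⟨c, d⟩
    simp only [odE, odO, Adj2, adj]
    omega
  adjEE := by
    rintro ⟨a, b⟩ ⟨c, d⟩ h
    simp only [odE, Adj2] at h
    omega
  adjOO := by
    rintro ⟨a, b⟩ ⟨c, d⟩ h
    simp only [odO, Adj2] at h
    omega
  reg := by
    rintro ⟨a, b⟩
    unfold region
    rw [Set.mem_sdiff, mem_aztec, Set.mem_insert_iff, Set.mem_singleton_iff]
    simp only [Prod.mk.injEq]
    push_cast
    constructor
    · rintro ⟨⟨h1, h2, h3, h4⟩, h5⟩
      rcases Int.even_or_odd' (b - a) with ⟨r, hr | hr⟩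
      · -- `u = b - a + n` odd
        right
        have hj : (r + m).toNat < 2 * m + 1 := by omega
        have hd : (a + r + m + 1).toNat < 2 * m + 1 + 1 := by omega
        refine ⟨(⟨(r + m).toNat, hj⟩, ⟨(a + r + m + 1).toNat, hd⟩), ?_, ?_⟩
        · rw [Ne, o0_iff]
          simp only
          omega
        · simp only [odO, Prod.mk.injEq]
          push_cast
          omega
      · left
        have hj : (r + m + 1).toNat < 2 * m + 1 + 1 := by omega
        have hd : (a + r + m + 1).toNat < 2 * m + 1 := by omega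
        refine ⟨(⟨(r + m + 1).toNat, hj⟩, ⟨(a + r + m + 1).toNat, hd⟩), ?_, ?_⟩
        · rw [Ne, eq_e0_iff]
          simp only
          omega
        · simp only [odE, Prod.mk.injEq]
          push_cast
          omega
    · rintro (⟨⟨j, d⟩, h1, h2⟩ | ⟨⟨i, c⟩, h1, h2⟩)
      · have hj := j.isLt
        have hd := d.isLt
        rw [Ne, eq_e0_iff] at h1
        simp only [odE, Prod.mk.injEq] at h1 h2
        push_cast at h2
        omega
      · have hj := i.isLt
        have hd := c.isLt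
        rw [Ne, o0_iff] at h1
        simp only [odO, Prod.mk.injEq] at h1 h2
        push_cast at h2
        omega

/-- The normalised central binomial coefficient `binom(2p,p) / 4^p`. -/
noncomputable def B (p : ℕ) : ℚ := (p.centralBinom : ℚ) / 4 ^ p

/-- evaluation in terms of the two by two determinant -/
lemma T_of_D2 {n q : ℕ} (hq : q + 1 < n) (cE : E n → Cell) (cO : O n → Cell)
    (I : Ident hq cE cO (region n)) (v : ℚ) (hv : 0 ≤ v) (h : D2 n q = - v) :
    (T n : ℚ) = 2 ^ (n * (n + 1) / 2) * v := by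
  unfold T
  rw [ncard_tilings hq I]
  exact card_of_D2 hq v hv h

theorem result :
    (∀ p : ℕ, 1 ≤ p → (T (4 * p) : ℚ) =
      2 ^ ((4 * p) * (4 * p + 1) / 2) * ((p : ℚ) / 2 * (B p ^ 2 * (1 + B p ^ 2)))) ∧
    (∀ p : ℕ, 1 ≤ p → (T (4 * p + 1) : ℚ) =
      2 ^ ((4 * p + 1) * (4 * p + 2) / 2) * ((2 * (p : ℚ) + 1) / 4 * (B p ^ 2 * (1 - B p ^ 2)))) ∧
    (∀ p : ℕ, (T (4 * p + 2) : ℚ) =
      2 ^ ((4 * p + 2) * (4 * p + 3) / 2) * ((2 * (p : ℚ) + 1) / 4 * B p ^ 2)) ∧
    (∀ p : ℕ, (T (4 * p + 3) : ℚ) =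
      2 ^ ((4 * p + 3) * (4 * p + 4) / 2) * ((2 * (p : ℚ) + 1) / 4 * (B p * B (p + 1)))) := by
  have hB : ∀ p, 0 ≤ B p := fun p => B_nonneg p
  refine ⟨?_, ?_, ?_, ?_⟩
  · intro p hp
    obtain ⟨p, rfl⟩ : ∃ r, p = r + 1 := ⟨p - 1, by omega⟩
    have hm : 4 * (p + 1) = 2 * (2 * (p + 1)) := by ring
    have hm' : 2 * p + 1 = 2 * (p + 1) - 1 := by omega
    have h := D2_case0 p
    rw [hm, hm'] at h
    have h2 := T_of_D2 (by omega) _ _ (ident_even (2 * (p + 1)) (by omega) (by omega))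
      (((p + 1 : ℕ) : ℚ) / 2 * (B (p + 1) ^ 2 * (1 + B (p + 1) ^ 2))) (by positivity) h
    rw [hm]
    exact h2
  · intro p hp
    have hm : 4 * p + 1 = 2 * (2 * p) + 1 := by ring
    have h := D2_case1 p
    rw [hm] at h
    have hB1 : B p ^ 2 ≤ 1 := pow_le_one₀ (hB p) (B_le_one p)
    have h2 := T_of_D2 (by omega) _ _ (ident_odd (2 * p) (by omega))
      ((2 * (p : ℚ) + 1) / 4 * (B p ^ 2 * (1 - B p ^ 2)))
      (mul_nonneg (by positivity) (mul_nonneg (by positivity) (by linarith))) h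
    rw [show 4 * p + 2 = 4 * p + 1 + 1 by ring, hm]
    exact h2
  · intro p
    have hm : 4 * p + 2 = 2 * (2 * p + 1) := by ring
    have hm' : 2 * p = 2 * p + 1 - 1 := by omega
    have h := D2_case2 p
    rw [hm] at h
    nth_rewrite 2 [hm'] at h
    have h2 := T_of_D2 (by omega) _ _ (ident_even (2 * p + 1) (by omega) (by omega))
      ((2 * (p : ℚ) + 1) / 4 * B p ^ 2) (by positivity) h
    rw [show 4 * p + 3 = 4 * p + 2 + 1 by ring, hm]
    exact h2
  · intro p
    have hm : 4 * p + 3 = 2 * (2 * p + 1) + 1 := by ring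
    have h := D2_case3 p
    rw [hm] at h
    have h2 := T_of_D2 (by omega) _ _ (ident_odd (2 * p + 1) (by omega))
      ((2 * (p : ℚ) + 1) / 4 * (B p * B (p + 1)))
      (mul_nonneg (by positivity) (mul_nonneg (hB p) (hB (p + 1)))) h
    rw [show 4 * p + 4 = 4 * p + 3 + 1 by ring, hm]
    exact h2

end Pool.Agent.Results.MP_b90a94_co.KnightMove
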